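import Pool.Agent.J4.H57.QP.St
import Pool.Agent.J4.H57.QP.Ch

/-!
# Quadruplets `p, p + a, p + d, p + e` between consecutive fifth powers, with `p` prime, a FIXED shift `a` (for instance
# `a = 2`), almost all pairs of very short shifts `d, e`, and `p + a`, `p + d`, `p + e` with at most two prime factors

There is an absolute constant `δ > 0` such that for every `a ≥ 1` and `ε > 0`: if `N` is large and
`Λ log N ≤ H ≤ N ^ 3`, where `Λ` is large in terms of `a` and `ε`, then all but at most `ε H ^ 2` of the pairs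
`D = {d, e} ⊆ [1, H] \ {a}` such that `{0, a} ∪ D` misses a class modulo every prime have the following property. For at
least `δ N` of the `n ≤ N` there are at least `δ 𝔖({0, a} ∪ D) n ^ 4 / (log n) ^ 4` primes `p` such that all the numbers
`p, p + a, p + d, p + e` are strictly between `n ^ 5` and `(n + 1) ^ 5` and each of `p + a`, `p + d`, `p + e` has at most
two prime factors, all of them `≥ N ^ (5 / 8)`.

Golubew asks this for all `n`, for `D = {6, 8}`, `a = 2` and with primes `p + a`, `p + d`, `p + e`. Here the pair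
`p, p + a` is as in the theorem of Chen, and the diameters of the patterns may be as small as a constant times the mean
distance of the primes.

Proof. The lower bound of helper38 (project CH: Chen's switching for `p + a` over primes `p` for which all `p + d` are
free of small prime factors, and a large sieve of level greater than `1/2` for the shifts `d`) for the number of such `p`
up to `N ^ 5` is combined with an upper bound sieve in the intervals between consecutive fifth powers, uniform in the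
pattern and correct up to a constant (`Pool.Agent.J4.H57.QP`).
-/

set_option autoImplicit false

open Finset Filter

namespace Pool.Agent.Results.MP_c03ca8_nt.ChenQuadruples

/-- the number of residue classes modulo `p` occupied by `T` -/
def nu (T : Finset ℕ) (p : ℕ) : ℕ := (T.image (· % p)).card

/-- the factor at `p` of the singular series -/
noncomputable def loc (T : Finset ℕ) (p : ℕ) : ℝ :=
  (1 - (nu T p : ℝ) / p) / (1 - 1 / (p : ℝ)) ^ T.card

/-- the singular series of `T` -/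
noncomputable def 𝔖 (T : Finset ℕ) : ℝ := ∏' p : Nat.Primes, loc T p

/-- the number of the primes `p` such that all the numbers `p`, `p + a`, `p + d`, `d ∈ D`, are between `n ^ 5`
and `(n + 1) ^ 5`, `p + a` has at most two prime factors (counted with multiplicity), all of them at least
`N ^ (5 / 8)`, and each `p + d` has at most two prime factors, all of them at least `N ^ (5 / 7)` -/
noncomputable def almost (N a : ℕ) (D : Finset ℕ) (n : ℕ) : ℕ :=
  {p : ℕ | p.Prime ∧ n ^ 5 < p ∧ p < (n + 1) ^ 5 ∧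
    (p + a < (n + 1) ^ 5 ∧ (p + a).primeFactorsList.length ≤ 2 ∧
      ∀ q ∈ (p + a).primeFactors, (N : ℝ) ^ (5 / 8 : ℝ) ≤ q) ∧
    ∀ d ∈ D, p + d < (n + 1) ^ 5 ∧ (p + d).primeFactorsList.length ≤ 2 ∧
      ∀ q ∈ (p + d).primeFactors, (N : ℝ) ^ (5 / 7 : ℝ) ≤ q}.ncard

open Classical in
/-- for at least `δ N` of the `n ≤ N` there are at least `δ 𝔖({0, a} ∪ D) n ^ 4 / (log n) ^ 4` such
primes -/
def Often (δ : ℝ) (N a : ℕ) (D : Finset ℕ) : Prop :=
  δ * N ≤ (((Icc 1 N).filter (fun n : ℕ =>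
    δ * 𝔖 ({0, a} ∪ D) * ((n : ℝ) ^ 4 / Real.log n ^ 4) ≤ (almost N a D n : ℝ))).card : ℝ)

open Classical in
/-- the exceptional pairs -/
noncomputable def bad (δ : ℝ) (N H a : ℕ) : Finset (Finset ℕ) :=
  (((Icc 1 H).erase a).powersetCard 2).filter (fun D => 𝔖 ({0, a} ∪ D) ≠ 0 ∧ ¬ Often δ N a D)

open Pool.Agent.H387R2.Uni Pool.Agent.J4.H57.QP Pool.Agent.J4.H38.SR Pool.Agent.J4.H38.CH

theorem CT_eq (T : Finset ℕ) : CT T = 𝔖 T := rfl

lemma pow_five (N : ℕ) (s : ℝ) (t : ℝ) (h : 5 * s = t) : (((N ^ 5 : ℕ) : ℝ)) ^ s = (N : ℝ) ^ t := by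
  push_cast
  rw [← Real.rpow_natCast, ← Real.rpow_mul (Nat.cast_nonneg _), ← h]
  norm_num

open Classical in
/-- The products `𝔖 T` converge and are positive for admissible `T`.  There is a constant `δ > 0` such
that for all `a ≥ 1` and `ε > 0` there are `Λ` and `N₀` with the following property: for all integers `N ≥ N₀` and
`H` with `Λ log N ≤ H ≤ N ^ 3`, for all but at most `ε H ^ 2` of the two-element sets `D ⊆ [1, H] \ {a}` with
`𝔖({0, a} ∪ D) ≠ 0`, for at least `δ N` of the `n ≤ N` there are at least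
`δ 𝔖({0, a} ∪ D) n ^ 4 / (log n) ^ 4` primes `p` such that `p`, `p + a` and the `p + d`, `d ∈ D`, are strictly
between `n ^ 5` and `(n + 1) ^ 5`, and `p + a` and each `p + d` have at most two prime factors, those of `p + a` at
least `N ^ (5 / 8)` and those of the `p + d` at least `N ^ (5 / 7)`. -/
theorem result :
    (∀ T : Finset ℕ, HasProd (fun p : Nat.Primes => loc T p) (𝔖 T) ∧
      ((∀ p : ℕ, p.Prime → nu T p < p) → 0 < 𝔖 T)) ∧
    ∃ δ : ℝ, 0 < δ ∧ ∀ a : ℕ, 1 ≤ a → ∀ ε : ℝ, 0 < ε → ∃ (Λ : ℝ) (N₀ : ℕ), ∀ N : ℕ, N₀ ≤ N →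
      ∀ H : ℕ, Λ * Real.log N ≤ H → H ≤ N ^ 3 → ((bad δ N H a).card : ℝ) ≤ ε * (H : ℝ) ^ 2 := by
  refine ⟨fun T => ⟨CT_hasProd T, fun hT => CT_pos_of_adm hT⟩, ?_⟩
  obtain ⟨c, hc, hmain⟩ := coreT
  obtain ⟨δ, hδ, N₂, hN₂⟩ := Pool.Agent.J4.H57.QP.step (κ := c ^ 3) (by positivity)
  refine ⟨δ, hδ, fun a ha ε hε => ?_⟩
  obtain ⟨Λ, x₀, hmain⟩ := hmain a 2 ha (by norm_num) ε hε
  refine ⟨5 * Λ, max ⌈x₀⌉₊ (max N₂ (max a 2)), fun N hN H hH1 hH2 => ?_⟩
  have g1 : ⌈x₀⌉₊ ≤ N := (le_max_left _ _).trans hN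
  have g2 : N₂ ≤ N := (le_max_left _ _).trans ((le_max_right _ _).trans hN)
  have g3 : max a 2 ≤ N := (le_max_right _ _).trans ((le_max_right _ _).trans hN)
  have g4 : a ≤ N := (le_max_left _ _).trans g3
  have g5 : 2 ≤ N := (le_max_right _ _).trans g3
  have hN5 : x₀ ≤ ((N ^ 5 : ℕ) : ℝ) := by
    refine (Nat.le_ceil x₀).trans ?_
    exact_mod_cast g1.trans (Nat.le_self_pow (by norm_num) N)
  have hN35 : 2 * N ^ 3 ≤ N ^ 5 := by
    have h1 : N ^ 5 = N * N * N ^ 3 := by ring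
    rw [h1]
    exact Nat.mul_le_mul_right _ (by nlinarith)
  refine hmain (N ^ 5) hN5 H (by
    rw [Pool.Agent.J4.H57.QP.log_pow5]
    linarith) (by omega) (bad δ N H a) fun D hD => ?_
  unfold bad at hD
  rw [mem_filter, ← CT_eq] at hD
  obtain ⟨d1, d2, d3⟩ := hD
  refine ⟨d1, ?_⟩
  intro himp
  apply d3
  have hlt := himp d2
  obtain ⟨hDsub, hDc⟩ := Finset.mem_powersetCard.1 d1
  have hDa : ∀ d ∈ D, d ≠ a ∧ 1 ≤ d ∧ d ≤ H := fun d hd => by
    have h1 := mem_erase.1 (hDsub hd)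
    have h2 := mem_Icc.1 h1.2
    exact ⟨h1.1, h2.1, h2.2⟩
  have hT : ({0, a} ∪ D : Finset ℕ).card = 4 := by
    rw [card_union_of_disjoint, hDc, card_pair (by omega)]
    rw [Finset.disjoint_left]
    intro t ht htD
    have h1 := hDa t htD
    rw [mem_insert, mem_singleton] at ht
    omega
  obtain ⟨Q, hQ⟩ : ∃ Q : ℕ → Prop, Q = fun p => p.Prime ∧ ((p + a).primeFactorsList.length ≤ 2 ∧
      ∀ q ∈ (p + a).primeFactors, (((N ^ 5 : ℕ) : ℝ)) ^ (1 / 8 : ℝ) ≤ q) ∧ ∀ d ∈ D,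
      (p + d).primeFactorsList.length ≤ 2 ∧ ∀ q ∈ (p + d).primeFactors,
        (((N ^ 5 : ℕ) : ℝ)) ^ (1 / 7 : ℝ) ≤ q := ⟨_, rfl⟩
  have hN51 : (1 : ℝ) ≤ ((N ^ 5 : ℕ) : ℝ) := by
    exact_mod_cast Nat.one_le_pow _ _ (by omega)
  -- a prime factor of size at least `(N ^ 5) ^ (1 / 8)` is too large
  have hbig : ∀ n : ℕ, 32 ≤ n → n ≤ N → ∀ l : ℕ, (((N ^ 5 : ℕ) : ℝ)) ^ (1 / 8 : ℝ) ≤ l →
      l ^ 8 ≤ (n + 1) ^ 5 - n ^ 5 → False := by
    intro n hn hnN l h1 hl8
    have h2 : (n + 1) ^ 5 - n ^ 5 < N ^ 5 := by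
      have h3 := diff_lt hn
      have h4 : n ^ 5 ≤ N ^ 5 := Nat.pow_le_pow_left hnN 5
      have h5 : 1 ≤ n ^ 5 := Nat.one_le_pow _ _ (by omega)
      omega
    have h3 : l ^ 8 < N ^ 5 := lt_of_le_of_lt hl8 h2
    have h4 : (((N ^ 5 : ℕ) : ℝ)) ≤ (l : ℝ) ^ 8 := by
      have h5 := pow_le_pow_left₀ (by positivity) h1 8
      rw [← Real.rpow_natCast, ← Real.rpow_mul (Nat.cast_nonneg _)] at h5
      norm_num at h5
      push_cast
      exact h5
    have h6 : ((l ^ 8 : ℕ) : ℝ) < ((N ^ 5 : ℕ) : ℝ) := by exact_mod_cast h3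
    push_cast at h6 h4
    linarith
  have key := hN₂ N g2 ({0, a} ∪ D) hT (by
    intro t ht
    rw [mem_union, mem_insert, mem_singleton] at ht
    rcases ht with (rfl | rfl) | ht
    · exact Nat.zero_le _
    · exact g4.trans (Nat.le_self_pow (by norm_num) N)
    · exact (hDa t ht).2.2.trans hH2) Q (by
    intro n hn hnN m hm1 hm2 hQm t ht l hl hl8 hdvd
    rw [hQ] at hQm
    obtain ⟨q1, q2, q3⟩ := hQm
    have hn5 : 1 ≤ n ^ 5 := Nat.one_le_pow _ _ (by omega)
    rw [mem_union, mem_insert, mem_singleton] at ht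
    rcases ht with (rfl | rfl) | ht
    · have h1 : l = m := (Nat.prime_dvd_prime_iff_eq hl q1).1 (by simpa using hdvd)
      have h2 := diff_lt hn
      have h3 : l ≤ l ^ 8 := Nat.le_self_pow (by norm_num) _
      omega
    · have h1 := q2.2 l (Nat.mem_primeFactors.2 ⟨hl, hdvd, by omega⟩)
      exact hbig n hn hnN l h1 hl8
    · have h1 := (q3 t ht).2 l (Nat.mem_primeFactors.2 ⟨hl, hdvd, by omega⟩)
      exact hbig n hn hnN l ((Real.rpow_le_rpow_of_exponent_le hN51 (by norm_num)).trans h1) hl8) (by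
    refine hlt.trans (le_of_eq ?_)
    unfold Pool.Agent.J4.H38.CH.piT
    rw [hQ]
    congr! 3)
  unfold Often
  unfold OftS at key
  refine key.trans (le_of_eq ?_)
  congr 2
  refine Finset.filter_congr fun n _ => ?_
  rw [CT_eq]
  have hset : {m : ℕ | Q m ∧ ∀ t ∈ ({0, a} ∪ D : Finset ℕ), n ^ 5 < m + t ∧ m + t < (n + 1) ^ 5} =
      {p : ℕ | p.Prime ∧ n ^ 5 < p ∧ p < (n + 1) ^ 5 ∧
        (p + a < (n + 1) ^ 5 ∧ (p + a).primeFactorsList.length ≤ 2 ∧
          ∀ q ∈ (p + a).primeFactors, (N : ℝ) ^ (5 / 8 : ℝ) ≤ q) ∧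
        ∀ d ∈ D, p + d < (n + 1) ^ 5 ∧ (p + d).primeFactorsList.length ≤ 2 ∧
          ∀ q ∈ (p + d).primeFactors, (N : ℝ) ^ (5 / 7 : ℝ) ≤ q} := by
    ext m
    constructor
    · intro hm
      have hm' : Q m ∧ ∀ t ∈ ({0, a} ∪ D : Finset ℕ), n ^ 5 < m + t ∧ m + t < (n + 1) ^ 5 := hm
      obtain ⟨a1, a2⟩ := hm'
      rw [hQ, pow_five N (1 / 8) (5 / 8) (by norm_num), pow_five N (1 / 7) (5 / 7) (by norm_num)] at a1
      have a3 := a2 0 (by simp)
      exact ⟨a1.1, by simpa using a3.1, by simpa using a3.2,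
        ⟨(a2 a (by simp)).2, a1.2.1⟩, fun d hd => ⟨(a2 d (mem_union_right _ hd)).2, a1.2.2 d hd⟩⟩
    · intro hm
      have hm' : m.Prime ∧ n ^ 5 < m ∧ m < (n + 1) ^ 5 ∧
        (m + a < (n + 1) ^ 5 ∧ (m + a).primeFactorsList.length ≤ 2 ∧
          ∀ q ∈ (m + a).primeFactors, (N : ℝ) ^ (5 / 8 : ℝ) ≤ q) ∧
        ∀ d ∈ D, m + d < (n + 1) ^ 5 ∧ (m + d).primeFactorsList.length ≤ 2 ∧
          ∀ q ∈ (m + d).primeFactors, (N : ℝ) ^ (5 / 7 : ℝ) ≤ q := hm
      obtain ⟨a1, a2, a3, a4, a5⟩ := hm'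
      change Q m ∧ ∀ t ∈ ({0, a} ∪ D : Finset ℕ), n ^ 5 < m + t ∧ m + t < (n + 1) ^ 5
      refine ⟨?_, fun t ht => ?_⟩
      · rw [hQ, pow_five N (1 / 8) (5 / 8) (by norm_num), pow_five N (1 / 7) (5 / 7) (by norm_num)]
        exact ⟨a1, a4.2, fun d hd => (a5 d hd).2⟩
      · rw [mem_union, mem_insert, mem_singleton] at ht
        rcases ht with (rfl | rfl) | ht
        · exact ⟨by simpa using a2, by simpa using a3⟩
        · exact ⟨by omega, a4.1⟩
        · exact ⟨by omega, (a5 t ht).1⟩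
  beta_reduce
  rw [hset]
  rfl

end Pool.Agent.Results.MP_c03ca8_nt.ChenQuadruples
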