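import Mathlib
import Pool.Agent.J4.H57.BQ.Fin

/-!
# Two CONSECUTIVE primes `p, p + g`, `g ≤ 212`, and `p + d` a product of at most two primes for almost all short patterns,
# between consecutive fifth powers

Golubew asks for four primes `p, p + 2, p + 6, p + 8` between `n ^ 5` and `(n + 1) ^ 5`. Here two of the four numbers are
primes, they are even consecutive primes at the bounded distance `g ≤ 212`, and the two others (more generally, `k` others)
have at most two prime factors, for almost all patterns `D` of `k` multiples of a number `W` in windows `[1, H]` which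
may be as short as a constant times the mean distance of the primes, and for a positive proportion of the `n`. (The restriction
to multiples of some `W` is needed, because the pairs `p, p + g` of the theorem of Maynard and Tao could lie in few residue classes
modulo `W`.)

Method. Project BP of helper38 (team work) shows for numbers up to `x`: relative to the sets of Maynard and Tao (45 forms
without small prime factors, at two of which there are primes) almost all shifts `d` are distributed as if the pairs of primes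
were random, so that the weighted sieve, a large sieve of level greater than `1/2` and a duality argument give numbers with at most
two prime factors. Here this is transported to the intervals between consecutive fifth powers by an upper bound sieve which is uniform
in the pattern (`Pool.Agent.J4.H57.BQ`), after a mean value of the densities of the patterns.
-/

set_option autoImplicit false

namespace Pool.Agent.Results.MP_c03ca8_nt.ConsecutivePrimesAndP2

open Finset Filter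

/-- the multiples of `W` in `[1, H]` -/
def multiples (W H : ℕ) : Finset ℕ := (Icc 1 H).filter (fun d => W ∣ d)

/-- the number of the primes `p > n ^ 5` such that `p + g` is the next prime after `p` and is smaller than `(n + 1) ^ 5`, and
all `p + d`, `d ∈ D`, are smaller than `(n + 1) ^ 5` and have at most two prime factors (counted with multiplicity), all of
them at least `N ^ (5 / 7)` -/
noncomputable def tuples (N g : ℕ) (D : Finset ℕ) (n : ℕ) : ℕ :=
  {p : ℕ | n ^ 5 < p ∧ p.Prime ∧ (p + g).Prime ∧ p + g < (n + 1) ^ 5 ∧ (∀ r : ℕ, p < r → r < p + g → ¬ r.Prime) ∧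
    ∀ d ∈ D, p + d < (n + 1) ^ 5 ∧ (p + d).primeFactorsList.length ≤ 2 ∧
      ∀ q ∈ (p + d).primeFactors, (N : ℝ) ^ (5 / 7 : ℝ) ≤ q}.ncard

open Classical in
/-- for at least `δ N` of the `n ≤ N` there are at least `δ N ^ 4 / (log N) ^ (k + 45)` such primes -/
def Often (δ : ℝ) (k N g : ℕ) (D : Finset ℕ) : Prop :=
  δ * N ≤ (((Icc 1 N).filter (fun n : ℕ =>
    δ * ((N : ℝ) ^ 4 / Real.log N ^ (k + 45)) ≤ (tuples N g D n : ℝ))).card : ℝ)

section
open Pool.Agent.J4.H57.BQ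
open Pool.Agent.J4.H38.DV (AW)
open Pool.Agent.H373R2.T7 (pz mem_pz)

lemma W_pos (w : ℕ) : 1 ≤ ∏ p ∈ pz w, p := prod_pos fun _ hp => (mem_pz.1 hp).2.pos

lemma multiples_eq (w H : ℕ) : AW w 0 H = multiples (∏ p ∈ pz w, p) H := by
  unfold AW multiples
  simp

/-- the number of the multiples -/
lemma card_multiples {W : ℕ} (hW : 1 ≤ W) (H : ℕ) :
    ((multiples W H).card : ℝ) ≤ H / W ∧ (H : ℝ) / W - 1 ≤ (multiples W H).card := by
  have hWr : (0 : ℝ) < W := by exact_mod_cast hW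
  have h1 : (multiples W H).card = H / W := by
    unfold multiples
    rw [← Nat.Ioc_filter_dvd_card_eq_div H W]
    congr 1
  rw [h1]
  refine ⟨Nat.cast_div_le, ?_⟩
  have := Nat.lt_div_mul_add (a := H) hW
  have h4 : (H : ℝ) ≤ ((H / W * W + W : ℕ) : ℝ) := by exact_mod_cast this.le
  push_cast at h4
  have h3 : (H : ℝ) / W ≤ ((H / W : ℕ) : ℝ) + 1 := by
    rw [div_le_iff₀ hWr]
    linarith
  linarith

/-- many small primes -/
lemma W_large {w : ℕ} (hw : 11 ≤ w) : 212 < ∏ p ∈ pz w, p := by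
  have h1 : ({2, 3, 5, 7, 11} : Finset ℕ) ⊆ pz w := by
    intro p hp
    rw [mem_pz]
    simp only [mem_insert, mem_singleton] at hp
    rcases hp with rfl | rfl | rfl | rfl | rfl
    · exact ⟨by omega, by norm_num⟩
    · exact ⟨by omega, by norm_num⟩
    · exact ⟨by omega, by norm_num⟩
    · exact ⟨by omega, by norm_num⟩
    · exact ⟨by omega, by norm_num⟩
  have h2 : ∏ p ∈ ({2, 3, 5, 7, 11} : Finset ℕ), p ≤ ∏ p ∈ pz w, p :=
    prod_le_prod_of_subset_of_one_le' h1 fun p hp _ => (mem_pz.1 hp).2.one_lt.le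
  have h3 : ∏ p ∈ ({2, 3, 5, 7, 11} : Finset ℕ), p = 2310 := by decide
  omega

lemma cq_le {N g H : ℕ} {D : Finset ℕ} (hg : g ≤ N ^ 3) (hH : H ≤ N ^ 3) (hD : ∀ d ∈ D, d ≤ H) (n : ℕ) :
    cq N g D n ≤ tuples N g D n := by
  classical
  unfold cq tuples
  rw [← Set.ncard_coe_finset]
  refine Set.ncard_le_ncard ?_ ((Set.finite_lt_nat ((n + 1) ^ 5)).subset ?_)
  · intro p hp
    rw [Finset.mem_coe, mem_filter] at hp
    obtain ⟨_, h1, h2, h3, h4, h5, h6⟩ := hp
    refine ⟨h1, h3, h4, by omega, h5, fun d hd => ?_⟩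
    have h7 := hD d hd
    refine ⟨by omega, (h6 d hd).1, fun q hq => le_trans (le_of_eq ?_) ((h6 d hd).2 q hq)⟩
    push_cast
    rw [← Real.rpow_natCast, ← Real.rpow_mul (Nat.cast_nonneg _)]
    norm_num
  · intro p hp
    have hp' : n ^ 5 < p ∧ p.Prime ∧ (p + g).Prime ∧ p + g < (n + 1) ^ 5 ∧ (∀ r : ℕ, p < r → r < p + g → ¬ r.Prime) ∧
      ∀ d ∈ D, p + d < (n + 1) ^ 5 ∧ (p + d).primeFactorsList.length ≤ 2 ∧
      ∀ q ∈ (p + d).primeFactors, (N : ℝ) ^ (5 / 7 : ℝ) ≤ q := hp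
    have := hp'.2.2.2.1
    show p < (n + 1) ^ 5
    omega

open Classical in
lemma often_of {N g H : ℕ} {D : Finset ℕ} (hg : g ≤ N ^ 3) (hH : H ≤ N ^ 3) (hD : ∀ d ∈ D, d ≤ H) {δ : ℝ} {k : ℕ}
    (h : δ * N ≤ (((Icc 1 N).filter (fun n : ℕ => δ * ((N : ℝ) ^ 4 / Real.log N ^ (k + 45)) ≤
        (cq N g D n : ℝ))).card : ℝ)) : Often δ k N g D := by
  unfold Often
  refine h.trans ?_
  have hsub : (Icc 1 N).filter (fun n : ℕ => δ * ((N : ℝ) ^ 4 / Real.log N ^ (k + 45)) ≤ (cq N g D n : ℝ)) ⊆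
      (Icc 1 N).filter (fun n : ℕ => δ * ((N : ℝ) ^ 4 / Real.log N ^ (k + 45)) ≤ (tuples N g D n : ℝ)) := by
    intro n hn
    rw [mem_filter] at hn ⊢
    refine ⟨hn.1, hn.2.trans ?_⟩
    exact_mod_cast cq_le hg hH hD n
  exact_mod_cast card_le_card hsub

lemma often_mono {N g k : ℕ} {D : Finset ℕ} {δ δ' : ℝ} (hδ : δ' ≤ δ) (h : Often δ k N g D) : Often δ' k N g D := by
  classical
  unfold Often at h ⊢
  refine (mul_le_mul_of_nonneg_right hδ (Nat.cast_nonneg _)).trans (h.trans ?_)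
  have hsub : (Icc 1 N).filter (fun n : ℕ => δ * ((N : ℝ) ^ 4 / Real.log N ^ (k + 45)) ≤ (tuples N g D n : ℝ)) ⊆
      (Icc 1 N).filter (fun n : ℕ => δ' * ((N : ℝ) ^ 4 / Real.log N ^ (k + 45)) ≤ (tuples N g D n : ℝ)) := by
    intro n hn
    rw [mem_filter] at hn ⊢
    refine ⟨hn.1, le_trans ?_ hn.2⟩
    exact mul_le_mul_of_nonneg_right hδ (div_nonneg (by positivity) (pow_nonneg (Real.log_natCast_nonneg N) _))
  exact_mod_cast card_le_card hsub

end

open Classical in
/-- **Consecutive primes and almost primes between consecutive fifth powers.** Let `k ≥ 1` (the problem is `k = 2`).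

(1) For all `ε > 0` there are an even `W > 212`, `Λ`, `δ > 0` and `N₀` such that for every `N ≥ N₀` there is an even
`g ≤ 212` with the following property. For all `H` with `Λ log N ≤ H ≤ N ^ 3`, all but at most `ε (H / W) ^ k` of the sets `D`
of `k` multiples of `W` in `[1, H]` satisfy `Often δ k N g D`: for at least `δ N` of the `n ≤ N` there are at least
`δ N ^ 4 / (log N) ^ (k + 45)` primes `p > n ^ 5` such that `p + g` is the next prime, all `p + d`, `d ∈ D`, have at most two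
prime factors, all of them at least `N ^ (5 / 7)`, and `p + g` and the `p + d` are smaller than `(n + 1) ^ 5`.

(2) There are `Λ`, `δ > 0` and `N₀` such that for every `N ≥ N₀` there is an even `g ≤ 212` such that for all `H` with
`Λ log N ≤ H ≤ N ^ 3`, at least `δ H ^ k` of the sets `D` of `k` elements of `[1, H]` satisfy `Often δ k N g D`.

(3) There are between `H / W - 1` and `H / W` multiples of `W` in `[1, H]`. -/
theorem result :
    (∀ k : ℕ, 1 ≤ k → ∀ ε : ℝ, 0 < ε → ∃ (W : ℕ) (Λ δ : ℝ) (N₀ : ℕ), 212 < W ∧ 2 ∣ W ∧ 0 < Λ ∧ 0 < δ ∧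
      ∀ N : ℕ, N₀ ≤ N → ∃ g : ℕ, 2 ≤ g ∧ g ≤ 212 ∧ Even g ∧ ∀ H : ℕ, Λ * Real.log N ≤ H → H ≤ N ^ 3 →
        ((((multiples W H).powersetCard k).filter (fun D => ¬ Often δ k N g D)).card : ℝ) ≤ ε * ((H : ℝ) / W) ^ k) ∧
    (∀ k : ℕ, 1 ≤ k → ∃ (Λ δ : ℝ) (N₀ : ℕ), 0 < Λ ∧ 0 < δ ∧
      ∀ N : ℕ, N₀ ≤ N → ∃ g : ℕ, 2 ≤ g ∧ g ≤ 212 ∧ Even g ∧ ∀ H : ℕ, Λ * Real.log N ≤ H → H ≤ N ^ 3 →
        δ * (H : ℝ) ^ k ≤ ((((Icc 1 H).powersetCard k).filter (fun D => Often δ k N g D)).card : ℝ)) ∧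
    ∀ W H : ℕ, 1 ≤ W → (H : ℝ) / W - 1 ≤ (multiples W H).card ∧ ((multiples W H).card : ℝ) ≤ H / W := by
  have hlim : Tendsto (fun N : ℕ => Real.log (N : ℝ)) atTop atTop :=
    Real.tendsto_log_atTop.comp (tendsto_natCast_atTop_atTop (R := ℝ))
  obtain ⟨N₁, hN₁⟩ := eventually_atTop.1 (hlim.eventually_ge_atTop 1)
  have part1 : ∀ k : ℕ, 1 ≤ k → ∀ ε : ℝ, 0 < ε → ∃ (W : ℕ) (Λ δ : ℝ) (N₀ : ℕ), 212 < W ∧ 2 ∣ W ∧ 0 < Λ ∧ 0 < δ ∧
      ∀ N : ℕ, N₀ ≤ N → ∃ g : ℕ, 2 ≤ g ∧ g ≤ 212 ∧ Even g ∧ ∀ H : ℕ, Λ * Real.log N ≤ H → H ≤ N ^ 3 →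
        ((((multiples W H).powersetCard k).filter (fun D => ¬ Often δ k N g D)).card : ℝ) ≤ ε * ((H : ℝ) / W) ^ k := by
    intro k hk ε hε
    obtain ⟨k, rfl⟩ : ∃ k', k = k' + 1 := ⟨k - 1, by omega⟩
    obtain ⟨w₀, hw₀, h⟩ := Pool.Agent.J4.H57.BQ.final5 k ε hε
    obtain ⟨Λ, δ, hΛ, hδ, h⟩ := h (max w₀ 11) (le_max_left _ _)
    obtain ⟨N₀, hN₀⟩ := eventually_atTop.1 h
    refine ⟨∏ p ∈ Pool.Agent.H373R2.T7.pz (max w₀ 11), p, Λ, δ, max N₀ 6, W_large (le_max_right _ _),
      dvd_prod_of_mem _ (Pool.Agent.H373R2.T7.mem_pz.2 ⟨by omega, Nat.prime_two⟩), hΛ, hδ, fun N hN => ?_⟩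
    obtain ⟨g, hg1, hg2, hg3, hg⟩ := hN₀ N ((le_max_left _ _).trans hN)
    have hN6 : 6 ≤ N := (le_max_right _ _).trans hN
    have hgN : g ≤ N ^ 3 := by
      have : 6 ^ 3 ≤ N ^ 3 := Nat.pow_le_pow_left hN6 3
      omega
    refine ⟨g, hg1, hg2, hg3, fun H hH1 hH2 => ?_⟩
    have h1 := hg H hH1 hH2
    rw [multiples_eq] at h1
    have hsub : ((multiples (∏ p ∈ Pool.Agent.H373R2.T7.pz (max w₀ 11), p) H).powersetCard (k + 1)).filter
        (fun D => ¬ Often δ (k + 1) N g D) ⊆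
        ((multiples (∏ p ∈ Pool.Agent.H373R2.T7.pz (max w₀ 11), p) H).powersetCard (k + 1)).filter (fun D =>
        ¬ δ * N ≤ (((Icc 1 N).filter (fun n : ℕ => δ * ((N : ℝ) ^ 4 / Real.log N ^ (k + 1 + 45)) ≤
        (Pool.Agent.J4.H57.BQ.cq N g D n : ℝ))).card : ℝ)) := by
      intro D hD
      rw [mem_filter] at hD ⊢
      refine ⟨hD.1, fun h2 => hD.2 (often_of (H := H) hgN hH2 (fun d hd => ?_) h2)⟩
      have h3 := (mem_powersetCard.1 hD.1).1 hd
      unfold multiples at h3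
      exact (mem_Icc.1 (mem_filter.1 h3).1).2
    have h2 : ((((multiples (∏ p ∈ Pool.Agent.H373R2.T7.pz (max w₀ 11), p) H).powersetCard (k + 1)).filter
        (fun D => ¬ Often δ (k + 1) N g D)).card : ℝ) ≤
        ((((multiples (∏ p ∈ Pool.Agent.H373R2.T7.pz (max w₀ 11), p) H).powersetCard (k + 1)).filter (fun D =>
        ¬ δ * N ≤ (((Icc 1 N).filter (fun n : ℕ => δ * ((N : ℝ) ^ 4 / Real.log N ^ (k + 1 + 45)) ≤
        (Pool.Agent.J4.H57.BQ.cq N g D n : ℝ))).card : ℝ))).card : ℝ) := by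
      exact_mod_cast card_le_card hsub
    refine h2.trans (h1.trans ?_)
    refine mul_le_mul_of_nonneg_left ?_ hε.le
    exact pow_le_pow_left₀ (Nat.cast_nonneg _) (card_multiples (W_pos _) H).1 (k + 1)
  refine ⟨part1, fun k hk => ?_, fun W H hW => ⟨(card_multiples hW H).2, (card_multiples hW H).1⟩⟩
  obtain ⟨W, Λ, δ, n₀, hW, hW2, hΛ, hδ, h⟩ := part1 k hk (1 / (2 * 2 ^ k * (k.factorial : ℝ))) (by positivity)
  have hW1 : 1 ≤ W := by omega
  have hWr : (1 : ℝ) ≤ W := by exact_mod_cast hW1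
  have hkr : (1 : ℝ) ≤ k := by exact_mod_cast hk
  refine ⟨max Λ (W * (2 * k + 2)), min δ (1 / (2 * 2 ^ k * (k.factorial : ℝ)) * (1 / (2 * W)) ^ k),
    max n₀ N₁, lt_max_of_lt_left hΛ, lt_min hδ (by positivity), fun n hn => ?_⟩
  have hnn₀ : n₀ ≤ n := (le_max_left _ _).trans hn
  have hL1 := hN₁ n ((le_max_right _ _).trans hn)
  have hL0 : 0 < Real.log n := by linarith
  obtain ⟨g, hg1, hg2, hg3, hg⟩ := h n hnn₀
  refine ⟨g, hg1, hg2, hg3, fun H hH1 hH2 => ?_⟩
  have hHΛ : Λ * Real.log n ≤ H := (mul_le_mul_of_nonneg_right (le_max_left _ _) (by linarith)).trans hH1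
  have hHW : (W : ℝ) * (2 * k + 2) ≤ H := by
    calc (W : ℝ) * (2 * k + 2) = (W * (2 * k + 2)) * 1 := (mul_one _).symm
      _ ≤ (W * (2 * k + 2)) * Real.log n := mul_le_mul_of_nonneg_left hL1 (by positivity)
      _ ≤ max Λ (W * (2 * k + 2)) * Real.log n := mul_le_mul_of_nonneg_right (le_max_right _ _) (by linarith)
      _ ≤ H := hH1
  have hHW' : (2 : ℝ) * k + 2 ≤ H / W := by rwa [le_div_iff₀ (by linarith), mul_comm]
  obtain ⟨q, hq⟩ : ∃ q : ℕ, q = (multiples W H).card := ⟨_, rfl⟩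
  have hq1 : (H : ℝ) / W - 1 ≤ q := by rw [hq]; exact (card_multiples hW1 H).2
  have hq1' : (q : ℝ) ≤ (H : ℝ) / W := by rw [hq]; exact (card_multiples hW1 H).1
  have hq2 : 2 * (k : ℝ) ≤ q := by linarith
  have hq3 : 2 * k ≤ q := by exact_mod_cast hq2
  have hq4 : (1 / (2 * W) : ℝ) * H ≤ q := by
    have : (1 / (2 * W) : ℝ) * H = (H / W) / 2 := by field_simp
    rw [this]
    linarith
  obtain ⟨B, hB⟩ : ∃ B, B = ((multiples W H).powersetCard k).filter (fun D => ¬ Often δ k n g D) := ⟨_, rfl⟩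
  have hBc : (B.card : ℝ) ≤ 1 / 2 * (((multiples W H).powersetCard k).card : ℝ) := by
    have h0 : (B.card : ℝ) ≤ 1 / (2 * 2 ^ k * (k.factorial : ℝ)) * ((H : ℝ) / W) ^ k := by
      rw [hB]
      exact hg H hHΛ hH2
    refine h0.trans ?_
    rw [card_powersetCard, ← hq]
    have h1 := Nat.pow_le_choose (α := ℝ) k q
    have h2 : ((H : ℝ) / W / 2) ^ k ≤ ((q + 1 - k : ℕ) : ℝ) ^ k := by
      refine pow_le_pow_left₀ (by positivity) ?_ k
      rw [Nat.cast_sub (by omega)]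
      push_cast
      linarith
    calc 1 / (2 * 2 ^ k * (k.factorial : ℝ)) * ((H : ℝ) / W) ^ k =
          1 / 2 * (((H : ℝ) / W / 2) ^ k / (k.factorial : ℝ)) := by
          rw [div_pow ((H : ℝ) / W)]
          field_simp
      _ ≤ 1 / 2 * (q.choose k : ℝ) := by
          refine mul_le_mul_of_nonneg_left ?_ (by norm_num)
          exact (div_le_div_of_nonneg_right h2 (by positivity)).trans h1
  have hT : (1 / (2 ^ k * (k.factorial : ℝ))) * (q : ℝ) ^ k ≤ (((multiples W H).powersetCard k).card : ℝ) := by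
    rw [card_powersetCard, ← hq]
    have h1 := Nat.pow_le_choose (α := ℝ) k q
    refine le_trans ?_ h1
    have h2 : ((q : ℝ) / 2) ^ k ≤ ((q + 1 - k : ℕ) : ℝ) ^ k := by
      refine pow_le_pow_left₀ (by positivity) ?_ k
      rw [Nat.cast_sub (by omega)]
      push_cast
      linarith
    calc (1 / (2 ^ k * (k.factorial : ℝ))) * (q : ℝ) ^ k = ((q : ℝ) / 2) ^ k / (k.factorial : ℝ) := by
          rw [div_pow]
          field_simp
      _ ≤ _ := div_le_div_of_nonneg_right h2 (by positivity)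
  obtain ⟨δ₂, hδ₂⟩ : ∃ δ₂ : ℝ, δ₂ = min δ (1 / (2 * 2 ^ k * (k.factorial : ℝ)) * (1 / (2 * W)) ^ k) := ⟨_, rfl⟩
  rw [← hδ₂]
  have hsub : (multiples W H).powersetCard k \ B ⊆ ((Icc 1 H).powersetCard k).filter (fun D => Often δ₂ k n g D) := by
    intro D hD
    rw [Finset.mem_sdiff] at hD
    obtain ⟨h1, h2⟩ := hD
    rw [mem_filter]
    refine ⟨?_, ?_⟩
    · rw [mem_powersetCard] at h1 ⊢
      refine ⟨fun m hm => ?_, h1.2⟩
      have h3 := h1.1 hm
      unfold multiples at h3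
      exact (mem_filter.1 h3).1
    · have h4 : Often δ k n g D := by
        by_contra h5
        exact h2 (by rw [hB, mem_filter]; exact ⟨h1, h5⟩)
      exact often_mono (by rw [hδ₂]; exact min_le_left _ _) h4
  have h1 := card_le_card hsub
  have h2 : ((multiples W H).powersetCard k).card ≤ ((multiples W H).powersetCard k \ B).card + B.card := by
    have := le_card_sdiff B ((multiples W H).powersetCard k)
    omega
  have h3 : (((multiples W H).powersetCard k).card : ℝ) ≤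
      ((((Icc 1 H).powersetCard k).filter (fun D => Often δ₂ k n g D)).card : ℝ) + B.card := by
    exact_mod_cast h2.trans (Nat.add_le_add_right h1 _)
  have h4 : 1 / (2 * 2 ^ k * (k.factorial : ℝ)) * (q : ℝ) ^ k ≤
      ((((Icc 1 H).powersetCard k).filter (fun D => Often δ₂ k n g D)).card : ℝ) := by
    have h5 : 1 / (2 ^ k * (k.factorial : ℝ)) * (q : ℝ) ^ k = 2 * (1 / (2 * 2 ^ k * (k.factorial : ℝ)) * (q : ℝ) ^ k) := by
      field_simp
    linarith
  refine le_trans ?_ h4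
  have h5 : ((1 / (2 * W) : ℝ) * H) ^ k ≤ (q : ℝ) ^ k := pow_le_pow_left₀ (by positivity) hq4 k
  calc δ₂ * (H : ℝ) ^ k ≤ 1 / (2 * 2 ^ k * (k.factorial : ℝ)) * (1 / (2 * W)) ^ k * (H : ℝ) ^ k := by
          rw [hδ₂]
          exact mul_le_mul_of_nonneg_right (min_le_right _ _) (by positivity)
    _ = 1 / (2 * 2 ^ k * (k.factorial : ℝ)) * ((1 / (2 * W) : ℝ) * H) ^ k := by rw [mul_pow]; ring
    _ ≤ _ := mul_le_mul_of_nonneg_left h5 (by positivity)

end Pool.Agent.Results.MP_c03ca8_nt.ConsecutivePrimesAndP2
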