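import Mathlib
import Pool.Agent.J4.H57.DS.Fin

/-!
# Primes `p` of an ARBITRARY dense set between ALL consecutive fifth powers, with `p + d` a `P_3` for almost all patterns `D`

Golubew asks for primes `p, p + 2, p + 6, p + 8` between `n ^ 5` and `(n + 1) ^ 5` for all `n`. Here `p` is a prime, for EVERY
large `n`, and it is even taken from an ARBITRARY set `P` of a positive proportion of the primes between `n ^ 5` and
`(n + 1) ^ 5`. Let `j ≥ 4` (the problem is `j = 5`) and `k ≥ 1` (the problem is `k = 3`). There is a number `W`, which depends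
only on the density of `P` (because of the local obstructions `P` may be a set of primes in one residue class), such that for
EVERY large `n` and almost all sets `D` of `k` multiples of `W` in the very short interval `[1, H]`, where `H` may be
a large multiple of `log n`, there are at least `c ^ k #P / (log n) ^ k` primes `p` in `P` such that all the `p + d`, `d ∈ D`,
are smaller than `(n + 1) ^ j` and have at most three prime factors, all of them at least `n ^ ((j - 1) / 8)`.

Method (`Pool.Agent.J4.H57.DS`): for almost all shifts the `p + d`, `p ∈ P`, are as often free of small prime factors as for a random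
set `P`. By duality (project DV of helper38) this follows from the pair correlations of the sifted sets relative to a majorant of
the primes; in these short intervals the majorant is the set of the integers without prime factors up to a small power of `n`,
with which only the fundamental lemma of sieve theory is needed. Then the weighted sieve and the large sieve inequality
for the shifts of `EveryInterval`, with the indicator function of `P` as weight. The number of the primes between consecutive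
`j`-th powers comes from a starting theorem.
-/

set_option autoImplicit false

namespace Pool.Agent.Results.MP_c03ca8_nt.DensePrimesEveryInterval

open Finset Filter

/-- the multiples of `W` in `[1, H]` -/
def multiples (W H : ℕ) : Finset ℕ := (Icc 1 H).filter (fun d => W ∣ d)

/-- the primes between `n ^ j` and `(n + 1) ^ j` -/
def primesBetween (j n : ℕ) : Finset ℕ := (Ioo (n ^ j) ((n + 1) ^ j)).filter Nat.Prime

open Classical in
/-- the number of the elements `p` of `P` such that all `p + d`, `d ∈ D`, are smaller than `(n + 1) ^ j` and have at most three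
prime factors (counted with multiplicity), all of them at least `n ^ ((j - 1) / 8)` -/
noncomputable def count (j n : ℕ) (P D : Finset ℕ) : ℕ :=
  (P.filter (fun p => ∀ d ∈ D, p + d < (n + 1) ^ j ∧ (p + d).primeFactorsList.length ≤ 3 ∧
    ∀ q ∈ (p + d).primeFactors, (n : ℝ) ^ (((j : ℝ) - 1) / 8) ≤ q)).card

section
open Pool.Agent.J4.H57.DS
open Pool.Agent.J4.H38.DV (AW)
open Pool.Agent.H373R2.T7 (pz mem_pz)

lemma W_pos (w : ℕ) : 1 ≤ ∏ p ∈ pz w, p := prod_pos fun _ hp => (mem_pz.1 hp).2.pos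

lemma multiples_eq (w H : ℕ) : AW w 0 H = multiples (∏ p ∈ pz w, p) H := by
  unfold AW multiples
  simp

lemma count_eq (j n : ℕ) (P D : Finset ℕ) : count j n P D = cntP j n P D := rfl

/-- the number of the multiples -/
lemma card_multiples {W : ℕ} (hW : 1 ≤ W) (H : ℕ) :
    ((multiples W H).card : ℝ) ≤ H / W ∧ (H : ℝ) / W - 1 ≤ (multiples W H).card := by
  have hWr : (0 : ℝ) < W := by exact_mod_cast hW
  have h1 : (multiples W H).card = H / W := by
    unfold multiples
    rw [← Nat.Ioc_filter_dvd_card_eq_div H W]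
    congr 1
  rw [h1]
  refine ⟨Nat.cast_div_le, ?_⟩
  have := Nat.lt_div_mul_add (a := H) hW
  have h4 : (H : ℝ) ≤ ((H / W * W + W : ℕ) : ℝ) := by exact_mod_cast this.le
  push_cast at h4
  have h3 : (H : ℝ) / W ≤ ((H / W : ℕ) : ℝ) + 1 := by
    rw [div_le_iff₀ hWr]
    linarith
  linarith

end

open Classical in
/-- **Dense sets of primes between all consecutive powers.** Let `j ≥ 4`; the problem is `j = 5`, `k = 3`.

(1) There is `c > 0` such that for all `k ≥ 1` and `δ, ε > 0` there are an even `W ≥ 1`, `Λ` and `n₀` with the following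
property. Let `n ≥ n₀`, let `P` be ANY set of at least `δ n ^ (j - 1) / log n` primes between `n ^ j` and `(n + 1) ^ j`, and
`Λ log n ≤ H ≤ n ^ (j - 1) / (log n) ^ 2`. Then for all but at most `ε (H / W) ^ k` of the sets `D` of `k` multiples of `W` in
`[1, H]` there are at least `c ^ k #P / (log n) ^ k` primes `p` in `P` such that all the `p + d`, `d ∈ D`, are smaller
than `(n + 1) ^ j` and have at most three prime factors, all of them at least `n ^ ((j - 1) / 8)`. (There are between `H / W - 1` and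
`H / W` multiples of `W` in `[1, H]`, part 4.)

(2) There is `c₁ > 0` such that for all large `n` there are at least `c₁ n ^ (j - 1) / log n` primes between `n ^ j` and
`(n + 1) ^ j` (so that `P` may be the set of all of them).

(3) In particular, for all `k ≥ 1` there are `c' > 0`, `Λ`, `n₀` such that for all `n ≥ n₀` and
`Λ log n ≤ H ≤ n ^ (j - 1) / (log n) ^ 2`, for at least `c' H ^ k` of the sets `D` of `k` elements of `[1, H]` there are at least
`c' n ^ (j - 1) / (log n) ^ (k + 1)` primes `p > n ^ j` with this property. -/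
theorem result (j : ℕ) (hj : 4 ≤ j) :
    (∃ c : ℝ, 0 < c ∧ ∀ k : ℕ, 1 ≤ k → ∀ δ ε : ℝ, 0 < δ → 0 < ε → ∃ (W : ℕ) (Λ : ℝ) (n₀ : ℕ), 1 ≤ W ∧ 2 ∣ W ∧ 0 < Λ ∧
      ∀ n : ℕ, n₀ ≤ n → ∀ P ⊆ primesBetween j n, δ * ((n : ℝ) ^ (j - 1) / Real.log n) ≤ P.card →
      ∀ H : ℕ, Λ * Real.log n ≤ H → (H : ℝ) ≤ (n : ℝ) ^ (j - 1) / Real.log n ^ 2 →
        ((((multiples W H).powersetCard k).filter (fun D =>
          (count j n P D : ℝ) < c ^ k * (P.card / Real.log n ^ k))).card : ℝ) ≤ ε * ((H : ℝ) / W) ^ k) ∧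
    (∃ (c₁ : ℝ) (n₀ : ℕ), 0 < c₁ ∧ ∀ n : ℕ, n₀ ≤ n →
      c₁ * ((n : ℝ) ^ (j - 1) / Real.log n) ≤ ((primesBetween j n).card : ℝ)) ∧
    (∀ k : ℕ, 1 ≤ k → ∃ (c' Λ : ℝ) (n₀ : ℕ), 0 < c' ∧ 0 < Λ ∧ ∀ n : ℕ, n₀ ≤ n →
      ∀ H : ℕ, Λ * Real.log n ≤ H → (H : ℝ) ≤ (n : ℝ) ^ (j - 1) / Real.log n ^ 2 →
        c' * (H : ℝ) ^ k ≤ ((((Icc 1 H).powersetCard k).filter (fun D =>
          c' * ((n : ℝ) ^ (j - 1) / Real.log n ^ (k + 1)) ≤ count j n (primesBetween j n) D)).card : ℝ)) ∧
    ∀ W H : ℕ, 1 ≤ W → (H : ℝ) / W - 1 ≤ (multiples W H).card ∧ ((multiples W H).card : ℝ) ≤ H / W := by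
  have hlim : Tendsto (fun N : ℕ => Real.log (N : ℝ)) atTop atTop :=
    Real.tendsto_log_atTop.comp (tendsto_natCast_atTop_atTop (R := ℝ))
  obtain ⟨N₁, hN₁⟩ := eventually_atTop.1 (hlim.eventually_ge_atTop 1)
  have part1 : ∃ c : ℝ, 0 < c ∧ ∀ k : ℕ, 1 ≤ k → ∀ δ ε : ℝ, 0 < δ → 0 < ε → ∃ (W : ℕ) (Λ : ℝ) (n₀ : ℕ), 1 ≤ W ∧
      2 ∣ W ∧ 0 < Λ ∧ ∀ n : ℕ, n₀ ≤ n → ∀ P ⊆ primesBetween j n, δ * ((n : ℝ) ^ (j - 1) / Real.log n) ≤ P.card →
      ∀ H : ℕ, Λ * Real.log n ≤ H → (H : ℝ) ≤ (n : ℝ) ^ (j - 1) / Real.log n ^ 2 →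
        ((((multiples W H).powersetCard k).filter (fun D =>
          (count j n P D : ℝ) < c ^ k * (P.card / Real.log n ^ k))).card : ℝ) ≤ ε * ((H : ℝ) / W) ^ k := by
    obtain ⟨c, hc, hmain⟩ := Pool.Agent.J4.H57.DS.densePow j hj
    refine ⟨c, hc, fun k hk δ ε hδ hε => ?_⟩
    obtain ⟨w, hw, Λ, n₀, hΛ, h⟩ := hmain k δ ε hk hδ hε
    refine ⟨_, Λ, max n₀ N₁, W_pos w, dvd_prod_of_mem _ (Pool.Agent.H373R2.T7.mem_pz.2 ⟨hw, Nat.prime_two⟩), hΛ,
      fun n hn P hP hPc H hH1 hH2 => ?_⟩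
    have hL1 := hN₁ n ((le_max_right _ _).trans hn)
    have hH2' : (H : ℝ) * Real.log n ^ 2 ≤ (n : ℝ) ^ (j - 1) := by
      rwa [le_div_iff₀ (by positivity)] at hH2
    have h1 := h n ((le_max_left _ _).trans hn) H hH1 hH2' P hP hPc
      (((multiples (∏ p ∈ Pool.Agent.H373R2.T7.pz w, p) H).powersetCard k).filter (fun D =>
          (count j n P D : ℝ) < c ^ k * (P.card / Real.log n ^ k))) (fun D hD => by
        rw [multiples_eq]
        exact mem_filter.1 hD)
    refine h1.trans ?_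
    rw [multiples_eq]
    refine mul_le_mul_of_nonneg_left ?_ hε.le
    exact pow_le_pow_left₀ (Nat.cast_nonneg _) (card_multiples (W_pos w) H).1 k
  have part2 : ∃ (c₁ : ℝ) (n₀ : ℕ), 0 < c₁ ∧ ∀ n : ℕ, n₀ ≤ n →
      c₁ * ((n : ℝ) ^ (j - 1) / Real.log n) ≤ ((primesBetween j n).card : ℝ) := by
    obtain ⟨c₁, hc₁, n₀, h⟩ := Pool.Agent.J4.H57.DS.primes_powers j hj
    exact ⟨c₁, n₀, hc₁, h⟩
  refine ⟨part1, part2, fun k hk => ?_, fun W H hW => ⟨(card_multiples hW H).2, (card_multiples hW H).1⟩⟩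
  obtain ⟨c, hc, hmain⟩ := part1
  obtain ⟨c₁, n₁, hc₁, hn₁⟩ := part2
  obtain ⟨W, Λ, n₀, hW, hW2, hΛ, h⟩ := hmain k hk c₁ (1 / (2 * 2 ^ k * (k.factorial : ℝ))) hc₁ (by positivity)
  have hWr : (1 : ℝ) ≤ W := by exact_mod_cast hW
  have hkr : (1 : ℝ) ≤ k := by exact_mod_cast hk
  refine ⟨min (c ^ k * c₁) (1 / (2 * 2 ^ k * (k.factorial : ℝ)) * (1 / (2 * W)) ^ k), max Λ (W * (2 * k + 2)),
    max (max n₀ n₁) N₁, lt_min (by positivity) (by positivity), lt_max_of_lt_left hΛ, fun n hn H hH1 hH2 => ?_⟩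
  have hnn₀ : n₀ ≤ n := (le_max_left _ _).trans ((le_max_left _ _).trans hn)
  have hnn₁ : n₁ ≤ n := (le_max_right _ _).trans ((le_max_left _ _).trans hn)
  have hL1 := hN₁ n ((le_max_right _ _).trans hn)
  have hL0 : 0 < Real.log n := by linarith
  have hHΛ : Λ * Real.log n ≤ H := (mul_le_mul_of_nonneg_right (le_max_left _ _) (by linarith)).trans hH1
  have hHW : (W : ℝ) * (2 * k + 2) ≤ H := by
    calc (W : ℝ) * (2 * k + 2) = (W * (2 * k + 2)) * 1 := (mul_one _).symm
      _ ≤ (W * (2 * k + 2)) * Real.log n := mul_le_mul_of_nonneg_left hL1 (by positivity)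
      _ ≤ max Λ (W * (2 * k + 2)) * Real.log n := mul_le_mul_of_nonneg_right (le_max_right _ _) (by linarith)
      _ ≤ H := hH1
  have hHW' : (2 : ℝ) * k + 2 ≤ H / W := by rwa [le_div_iff₀ (by linarith), mul_comm]
  obtain ⟨q, hq⟩ : ∃ q : ℕ, q = (multiples W H).card := ⟨_, rfl⟩
  have hq1 : (H : ℝ) / W - 1 ≤ q := by rw [hq]; exact (card_multiples hW H).2
  have hq1' : (q : ℝ) ≤ (H : ℝ) / W := by rw [hq]; exact (card_multiples hW H).1
  have hq2 : 2 * (k : ℝ) ≤ q := by linarith
  have hq3 : 2 * k ≤ q := by exact_mod_cast hq2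
  have hq4 : (1 / (2 * W) : ℝ) * H ≤ q := by
    have : (1 / (2 * W) : ℝ) * H = (H / W) / 2 := by field_simp
    rw [this]
    linarith
  obtain ⟨P, hP⟩ : ∃ P, P = primesBetween j n := ⟨_, rfl⟩
  have hPc : c₁ * ((n : ℝ) ^ (j - 1) / Real.log n) ≤ (P.card : ℝ) := by rw [hP]; exact hn₁ n hnn₁
  rw [← hP]
  obtain ⟨B, hB⟩ : ∃ B, B = ((multiples W H).powersetCard k).filter (fun D =>
        (count j n P D : ℝ) < c ^ k * (P.card / Real.log n ^ k)) := ⟨_, rfl⟩
  have hBc : (B.card : ℝ) ≤ 1 / 2 * (((multiples W H).powersetCard k).card : ℝ) := by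
    have h0 : (B.card : ℝ) ≤ 1 / (2 * 2 ^ k * (k.factorial : ℝ)) * ((H : ℝ) / W) ^ k := by
      rw [hB]
      exact h n hnn₀ P hP.le hPc H hHΛ hH2
    refine h0.trans ?_
    rw [card_powersetCard, ← hq]
    have h1 := Nat.pow_le_choose (α := ℝ) k q
    have h2 : ((H : ℝ) / W / 2) ^ k ≤ ((q + 1 - k : ℕ) : ℝ) ^ k := by
      refine pow_le_pow_left₀ (by positivity) ?_ k
      rw [Nat.cast_sub (by omega)]
      push_cast
      linarith
    calc 1 / (2 * 2 ^ k * (k.factorial : ℝ)) * ((H : ℝ) / W) ^ k =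
          1 / 2 * (((H : ℝ) / W / 2) ^ k / (k.factorial : ℝ)) := by
          rw [div_pow ((H : ℝ) / W)]
          field_simp
      _ ≤ 1 / 2 * (q.choose k : ℝ) := by
          refine mul_le_mul_of_nonneg_left ?_ (by norm_num)
          exact (div_le_div_of_nonneg_right h2 (by positivity)).trans h1
  have hT : (1 / (2 ^ k * (k.factorial : ℝ))) * (q : ℝ) ^ k ≤ (((multiples W H).powersetCard k).card : ℝ) := by
    rw [card_powersetCard, ← hq]
    have h1 := Nat.pow_le_choose (α := ℝ) k q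
    refine le_trans ?_ h1
    have h2 : ((q : ℝ) / 2) ^ k ≤ ((q + 1 - k : ℕ) : ℝ) ^ k := by
      refine pow_le_pow_left₀ (by positivity) ?_ k
      rw [Nat.cast_sub (by omega)]
      push_cast
      linarith
    calc (1 / (2 ^ k * (k.factorial : ℝ))) * (q : ℝ) ^ k = ((q : ℝ) / 2) ^ k / (k.factorial : ℝ) := by
          rw [div_pow]
          field_simp
      _ ≤ _ := div_le_div_of_nonneg_right h2 (by positivity)
  have hsub : (multiples W H).powersetCard k \ B ⊆ ((Icc 1 H).powersetCard k).filter (fun D =>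
        min (c ^ k * c₁) (1 / (2 * 2 ^ k * (k.factorial : ℝ)) * (1 / (2 * W)) ^ k) *
          ((n : ℝ) ^ (j - 1) / Real.log n ^ (k + 1)) ≤ count j n P D) := by
    intro D hD
    rw [Finset.mem_sdiff] at hD
    obtain ⟨h1, h2⟩ := hD
    rw [mem_filter]
    refine ⟨?_, ?_⟩
    · rw [mem_powersetCard] at h1 ⊢
      refine ⟨fun m hm => ?_, h1.2⟩
      have h3 := h1.1 hm
      unfold multiples at h3
      exact (mem_filter.1 h3).1
    · have h4 : ¬ (count j n P D : ℝ) < c ^ k * (P.card / Real.log n ^ k) := fun h5 =>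
        h2 (by rw [hB, mem_filter]; exact ⟨h1, h5⟩)
      rw [not_lt] at h4
      refine le_trans ?_ h4
      have h6 : c₁ * ((n : ℝ) ^ (j - 1) / Real.log n ^ (k + 1)) ≤ P.card / Real.log n ^ k := by
        rw [pow_succ (Real.log (n : ℝ)) k, le_div_iff₀ (by positivity)]
        refine le_trans (le_of_eq ?_) hPc
        field_simp
      calc _ ≤ c ^ k * c₁ * ((n : ℝ) ^ (j - 1) / Real.log n ^ (k + 1)) :=
            mul_le_mul_of_nonneg_right (min_le_left _ _) (by positivity)
        _ = c ^ k * (c₁ * ((n : ℝ) ^ (j - 1) / Real.log n ^ (k + 1))) := by ring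
        _ ≤ _ := mul_le_mul_of_nonneg_left h6 (by positivity)
  have h1 := card_le_card hsub
  have h2 : ((multiples W H).powersetCard k).card ≤ ((multiples W H).powersetCard k \ B).card + B.card := by
    have := le_card_sdiff B ((multiples W H).powersetCard k)
    omega
  have h3 : (((multiples W H).powersetCard k).card : ℝ) ≤
      ((((Icc 1 H).powersetCard k).filter (fun D =>
        min (c ^ k * c₁) (1 / (2 * 2 ^ k * (k.factorial : ℝ)) * (1 / (2 * W)) ^ k) *
          ((n : ℝ) ^ (j - 1) / Real.log n ^ (k + 1)) ≤ count j n P D)).card : ℝ) + B.card := by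
    exact_mod_cast h2.trans (Nat.add_le_add_right h1 _)
  have h4 : 1 / (2 * 2 ^ k * (k.factorial : ℝ)) * (q : ℝ) ^ k ≤
      ((((Icc 1 H).powersetCard k).filter (fun D =>
        min (c ^ k * c₁) (1 / (2 * 2 ^ k * (k.factorial : ℝ)) * (1 / (2 * W)) ^ k) *
          ((n : ℝ) ^ (j - 1) / Real.log n ^ (k + 1)) ≤ count j n P D)).card : ℝ) := by
    have h5 : 1 / (2 ^ k * (k.factorial : ℝ)) * (q : ℝ) ^ k = 2 * (1 / (2 * 2 ^ k * (k.factorial : ℝ)) * (q : ℝ) ^ k) := by
      field_simp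
    linarith
  refine le_trans ?_ h4
  have h5 : ((1 / (2 * W) : ℝ) * H) ^ k ≤ (q : ℝ) ^ k := pow_le_pow_left₀ (by positivity) hq4 k
  calc min (c ^ k * c₁) (1 / (2 * 2 ^ k * (k.factorial : ℝ)) * (1 / (2 * W)) ^ k) * (H : ℝ) ^ k ≤
        1 / (2 * 2 ^ k * (k.factorial : ℝ)) * (1 / (2 * W)) ^ k * (H : ℝ) ^ k :=
          mul_le_mul_of_nonneg_right (min_le_right _ _) (by positivity)
    _ = 1 / (2 * 2 ^ k * (k.factorial : ℝ)) * ((1 / (2 * W) : ℝ) * H) ^ k := by rw [mul_pow]; ring
    _ ≤ _ := mul_le_mul_of_nonneg_left h5 (by positivity)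

end Pool.Agent.Results.MP_c03ca8_nt.DensePrimesEveryInterval
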