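import Mathlib
import Pool.Agent.J4.H38.SR2.Int1
import Pool.Agent.J4.H38.SR.Rl

/-!
# Almost prime quadruplets between ALL consecutive fifth powers, for almost all patterns

Let `j ≥ 4` (the problem is `j = 5`) and `k ≥ 1` (the problem is `k = 4`). For EVERY large `n` and all `H` with
`Λ log n ≤ H ≤ n^(j-1)`, for all but `ε H^k` of the sets `D` of `k` elements of `[1, H]`: if `D` is admissible then
the number of the integers `m > n^j` such that all `m + d`, `d ∈ D`, are below `(n+1)^j` and have at most three prime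
factors, all of them at least `n^((j-1)/8)`, is at least `c^k 𝔖(D) n^(j-1) / (log n)^k`, the number of the
constellations of primes with the pattern `D` between `n^j` and `(n+1)^j` conjectured by Hardy and Littlewood, up to
the factor `c^k`.

The proof (`Pool.Agent.J4.H38.SR2`) works in every interval `(z, z + N]`, `N ≥ (z + 2N)^(3/4)`. For almost all sets of
shifts, the sequence of the integers `m` of the interval for which certain `m + d` are almost primes and the others
are free of small prime factors is well distributed in the residue classes `-t` to the moduli up to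
`N^(499/1000)` relative to the integers free of small prime factors (a large sieve inequality for the shifts, where
the Gram matrix is weighted by the indicator of the tuple being free of small prime factors). Then a sieve with
Richert's logarithmic weights, which are adjusted to numbers `m ≤ N^(4/3)`, is applied one shift after the other.
-/

set_option autoImplicit false

namespace Pool.Agent.Results.MP_c03ca8_nt.EveryInterval

open Finset Filter

/-- the number of the residue classes modulo `p` occupied by `D` -/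
def nu (D : Finset ℕ) (p : ℕ) : ℕ := (D.image (· % p)).card

/-- `D` is admissible: it does not occupy all residue classes modulo a prime -/
def Admissible (D : Finset ℕ) : Prop := ∀ p : ℕ, p.Prime → nu D p < p

/-- the factor of the singular series at `p` -/
noncomputable def factor (D : Finset ℕ) (p : ℕ) : ℝ :=
  (1 - (nu D p : ℝ) / p) / (1 - 1 / (p : ℝ)) ^ D.card

/-- the singular series of Hardy and Littlewood, a convergent product over the primes -/
noncomputable def singular (D : Finset ℕ) : ℝ := ∏' p : Nat.Primes, factor D p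

open Classical in
/-- the number of the integers `m` with `n^j < m` such that all `m + d`, `d ∈ D`, are smaller than `(n+1)^j` and
have at most three prime factors (counted with multiplicity), all of them at least `n ^ ((j - 1) / 8)` -/
noncomputable def count (j n : ℕ) (D : Finset ℕ) : ℕ :=
  ((Ioo (n ^ j) ((n + 1) ^ j)).filter (fun m => ∀ d ∈ D, m + d < (n + 1) ^ j ∧
    (m + d).primeFactorsList.length ≤ 3 ∧
    ∀ q ∈ (m + d).primeFactors, (n : ℝ) ^ (((j : ℝ) - 1) / 8) ≤ q)).card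

section
open Pool.Agent.J4.H38.SR Pool.Agent.J4.H38.SR2 Pool.Agent.Y822
open Pool.Agent.H387R2.Uni (nuT Adm locT CT CT_hasProd)

lemma adm_iff (D : Finset ℕ) : Admissible D ↔ Adm D := Iff.rfl

lemma singular_eq (D : Finset ℕ) : singular D = CT D := rfl

/-- the integers between two `j`-th powers as an interval `(z, z + N]` -/
lemma interval (j : ℕ) (hj : 4 ≤ j) : ∃ n₀ : ℕ, ∀ n : ℕ, n₀ ≤ n → ∀ H : ℕ, H ≤ n ^ (j - 1) →
    ∃ N : ℕ, n ^ j + N + H + 1 = (n + 1) ^ j ∧ 2 * n ^ (j - 1) ≤ N ∧ (N : ℝ) ≤ (n : ℝ) ^ j ∧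
      ((n ^ j + 2 * N : ℕ) : ℝ) ≤ (N : ℝ) ^ (4 / 3 : ℝ) := by
  refine ⟨4 * j, fun n hn H hH => ?_⟩
  obtain ⟨i, rfl⟩ : ∃ i, j = i + 1 := ⟨j - 1, by omega⟩
  rw [Nat.add_sub_cancel] at hH ⊢
  have hn1 : 1 ≤ n := by omega
  have hnr : (0 : ℝ) < n := by exact_mod_cast hn1
  have hpos : 1 ≤ n ^ i := Nat.one_le_pow _ _ hn1
  have hbin : n ^ (i + 1) + (i + 1) * n ^ i ≤ (n + 1) ^ (i + 1) := by
    have h1 : (1 : ℝ) + (i + 1 : ℕ) * (1 / n) ≤ (1 + 1 / n) ^ (i + 1) :=
      one_add_mul_le_pow (by have : (0 : ℝ) ≤ 1 / n := by positivity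
                             linarith) (i + 1)
    have h2 : ((n : ℝ) + 1) ^ (i + 1) = (n : ℝ) ^ (i + 1) * (1 + 1 / n) ^ (i + 1) := by
      rw [← mul_pow]
      congr 1
      field_simp
    have h3 : (n : ℝ) ^ (i + 1) + (i + 1) * (n : ℝ) ^ i = (n : ℝ) ^ (i + 1) * (1 + (i + 1 : ℕ) * (1 / n)) := by
      push_cast
      field_simp
      ring
    have h4 : (n : ℝ) ^ (i + 1) + (i + 1) * (n : ℝ) ^ i ≤ ((n : ℝ) + 1) ^ (i + 1) := by
      rw [h2, h3]
      exact mul_le_mul_of_nonneg_left h1 (by positivity)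
    exact_mod_cast h4
  have h4 : 4 * n ^ i ≤ (i + 1) * n ^ i := Nat.mul_le_mul_right _ hj
  obtain ⟨N, hN⟩ : ∃ N, N = (n + 1) ^ (i + 1) - n ^ (i + 1) - H - 1 := ⟨_, rfl⟩
  have hN1 : n ^ (i + 1) + N + H + 1 = (n + 1) ^ (i + 1) := by omega
  have hN2 : 2 * n ^ i ≤ N := by omega
  -- the upper bound
  have hexp : ((n : ℝ) + 1) ^ (i + 1) ≤ 4 / 3 * (n : ℝ) ^ (i + 1) := by
    have h2 : ((n : ℝ) + 1) ^ (i + 1) = (n : ℝ) ^ (i + 1) * (1 + 1 / n) ^ (i + 1) := by
      rw [← mul_pow]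
      congr 1
      field_simp
    have h5 : (1 + 1 / (n : ℝ)) ^ (i + 1) ≤ 4 / 3 := by
      have h6 : 1 + 1 / (n : ℝ) ≤ Real.exp (1 / n) := by
        have := Real.add_one_le_exp (1 / (n : ℝ))
        linarith
      have h7 : (1 + 1 / (n : ℝ)) ^ (i + 1) ≤ Real.exp ((i + 1 : ℕ) * (1 / n)) := by
        rw [Real.exp_nat_mul]
        exact pow_le_pow_left₀ (by positivity) h6 _
      refine h7.trans ?_
      have h8 : ((i + 1 : ℕ) : ℝ) * (1 / n) ≤ 1 / 4 := by
        have h9 : 4 * ((i + 1 : ℕ) : ℝ) ≤ n := by exact_mod_cast hn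
        rw [mul_one_div, div_le_iff₀ hnr]
        linarith
      refine (Real.exp_le_exp.2 h8).trans ?_
      have h9 : 1 - 1 / 4 ≤ Real.exp (-(1 / 4 : ℝ)) := by
        have := Real.add_one_le_exp (-(1 / 4) : ℝ)
        linarith
      have h10 : Real.exp (1 / 4) * Real.exp (-(1 / 4)) = 1 := by
        rw [← Real.exp_add]; norm_num
      have h11 := Real.exp_pos (1 / 4)
      nlinarith
    rw [h2]
    calc (n : ℝ) ^ (i + 1) * (1 + 1 / n) ^ (i + 1) ≤ (n : ℝ) ^ (i + 1) * (4 / 3) :=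
          mul_le_mul_of_nonneg_left h5 (by positivity)
      _ = _ := by ring
  have hNr : (N : ℝ) ≤ 1 / 3 * (n : ℝ) ^ (i + 1) := by
    have h12 : ((n ^ (i + 1) + N : ℕ) : ℝ) ≤ (((n + 1) ^ (i + 1) : ℕ) : ℝ) := by
      exact_mod_cast (by omega : n ^ (i + 1) + N ≤ (n + 1) ^ (i + 1))
    push_cast at h12
    linarith
  have hni : (0 : ℝ) < (n : ℝ) ^ (i + 1) := by positivity
  refine ⟨N, hN1, hN2, by linarith, ?_⟩
  have h13 : ((n ^ (i + 1) + 2 * N : ℕ) : ℝ) ≤ 5 / 3 * (n : ℝ) ^ (i + 1) := by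
    push_cast
    linarith
  refine h13.trans ?_
  have h14 : (2 * (n : ℝ) ^ i) ^ (4 / 3 : ℝ) ≤ (N : ℝ) ^ (4 / 3 : ℝ) := by
    refine Real.rpow_le_rpow (by positivity) ?_ (by norm_num)
    exact_mod_cast hN2
  refine le_trans ?_ h14
  rw [Real.mul_rpow (by norm_num) (by positivity)]
  have h15 : (n : ℝ) ^ (i + 1) ≤ ((n : ℝ) ^ i) ^ (4 / 3 : ℝ) := by
    rw [← Real.rpow_natCast, ← Real.rpow_natCast, ← Real.rpow_mul hnr.le]
    refine Real.rpow_le_rpow_of_exponent_le (by exact_mod_cast hn1) ?_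
    have h16 : (3 : ℝ) ≤ i := by exact_mod_cast (by omega : 3 ≤ i)
    push_cast
    linarith
  have h17 : (5 / 3 : ℝ) ≤ (2 : ℝ) ^ (4 / 3 : ℝ) := by
    have h18 : (2 : ℝ) ^ (1 : ℝ) ≤ (2 : ℝ) ^ (4 / 3 : ℝ) :=
      Real.rpow_le_rpow_of_exponent_le (by norm_num) (by norm_num)
    rw [Real.rpow_one] at h18
    linarith
  exact mul_le_mul h17 h15 hni.le (by positivity)

lemma count_ge {j n N H : ℕ} (hN : n ^ j + N + H + 1 = (n + 1) ^ j) (hj : 1 ≤ j)
    (hN2 : n ^ (j - 1) ≤ N) {D : Finset ℕ}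
    (hD : D ⊆ Icc 1 H) : pi3I (n ^ j) D N ≤ count j n D := by
  classical
  unfold pi3I count
  refine card_le_card_of_injOn (fun m => m + n ^ j) ?_ ?_
  · intro m hm
    rw [mem_coe, mem_filter, mem_Icc] at hm
    rw [mem_coe, mem_filter, mem_Ioo]
    simp only
    refine ⟨⟨by omega, by omega⟩, fun d hd => ?_⟩
    have h1 := mem_Icc.1 (hD hd)
    have h2 := hm.2 d hd
    have h3 : m + n ^ j + d = m + (d + n ^ j) := by ring
    rw [h3]
    refine ⟨by omega, h2.1, fun q hq => le_trans ?_ (h2.2 q hq)⟩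
    have h4 : (n : ℝ) ^ (((j : ℝ) - 1) / 8) = ((n : ℝ) ^ (j - 1)) ^ (1 / 8 : ℝ) := by
      rw [← Real.rpow_natCast, ← Real.rpow_mul (Nat.cast_nonneg _)]
      congr 1
      rw [Nat.cast_sub hj]
      push_cast
      ring
    rw [h4]
    refine Real.rpow_le_rpow (by positivity) ?_ (by norm_num)
    exact_mod_cast hN2
  · intro a _ b _ h
    simp only at h
    omega

/-- there are many admissible sets -/
lemma many (k : ℕ) (hk : 1 ≤ k) : ∃ c : ℝ, 0 < c ∧ ∃ H₀ : ℕ, ∀ H : ℕ, H₀ ≤ H →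
    ∃ F : Finset (Finset ℕ), F ⊆ (Icc 1 H).powersetCard k ∧ (∀ D ∈ F, Admissible D) ∧
      c * (H : ℝ) ^ k ≤ F.card := by
  classical
  obtain ⟨P, hP⟩ : ∃ P : ℕ, P = ∏ p ∈ (range (k + 1)).filter Nat.Prime, p := ⟨_, rfl⟩
  have hP1 : 1 ≤ P := by
    have h : 0 < ∏ p ∈ (range (k + 1)).filter Nat.Prime, p :=
      prod_pos fun p hp => (mem_filter.1 hp).2.pos
    rw [hP]
    exact h
  have hPr : (1 : ℝ) ≤ P := by exact_mod_cast hP1
  refine ⟨(1 / (2 * P : ℝ)) ^ k / (k.factorial : ℝ), by positivity, 2 * P * (k + 1), fun H hH => ?_⟩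
  have hinj : Function.Injective (fun j : ℕ => P * j) := fun a b h => Nat.eq_of_mul_eq_mul_left hP1 h
  refine ⟨((Icc 1 (H / P)).powersetCard k).image (fun S => S.image (fun j => P * j)), ?_, ?_, ?_⟩
  · intro D hD
    obtain ⟨S, hS, rfl⟩ := mem_image.1 hD
    rw [mem_powersetCard] at hS ⊢
    refine ⟨?_, ?_⟩
    · intro d hd
      obtain ⟨j, hj, rfl⟩ := mem_image.1 hd
      have h1 := mem_Icc.1 (hS.1 hj)
      rw [mem_Icc]
      have h2 : P * 1 ≤ P * j := Nat.mul_le_mul_left _ h1.1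
      have h3 : P * j ≤ H := (Nat.mul_le_mul_left P h1.2).trans (Nat.mul_div_le H P)
      omega
    · rw [card_image_of_injective _ hinj, hS.2]
  · intro D hD
    obtain ⟨S, hS, rfl⟩ := mem_image.1 hD
    rw [mem_powersetCard] at hS
    intro p hp
    by_cases hpk : p < k + 1
    · have h1 : nu (S.image (fun j => P * j)) p ≤ 1 := by
        unfold nu
        refine card_le_one.2 fun a ha b hb => ?_
        have h2 : ∀ x ∈ (S.image (fun j => P * j)).image (· % p), x = 0 := by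
          intro x hx
          obtain ⟨t, ht, rfl⟩ := mem_image.1 hx
          obtain ⟨j, hj, rfl⟩ := mem_image.1 ht
          have hpP : p ∣ P := by
            rw [hP]
            exact dvd_prod_of_mem _ (mem_filter.2 ⟨mem_range.2 hpk, hp⟩)
          exact (Nat.dvd_iff_mod_eq_zero).1 (hpP.trans (dvd_mul_right _ _))
        rw [h2 a ha, h2 b hb]
      exact lt_of_le_of_lt h1 hp.one_lt
    · have h2 : nu (S.image (fun j => P * j)) p ≤ k := by
        unfold nu
        exact card_image_le.trans (card_image_le.trans hS.2.le)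
      omega
  · rw [card_image_of_injective _ (image_injective hinj)]
    rw [card_powersetCard, Nat.card_Icc, Nat.add_sub_cancel]
    have h1 := Nat.pow_le_choose (α := ℝ) k (H / P)
    refine le_trans ?_ h1
    have h2 : (1 / (2 * P : ℝ)) * H ≤ ((H / P + 1 - k : ℕ) : ℝ) := by
      have h3 : (H : ℝ) / P ≤ (H / P : ℕ) + 1 := by
        rw [div_le_iff₀ (by linarith)]
        have := Nat.lt_div_mul_add (a := H) hP1
        have h4 : (H : ℝ) ≤ ((H / P * P + P : ℕ) : ℝ) := by exact_mod_cast this.le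
        push_cast at h4
        linarith
      have h4 : 2 * (k + 1) ≤ H / P := by
        rw [Nat.le_div_iff_mul_le hP1]
        calc 2 * (k + 1) * P = 2 * P * (k + 1) := by ring
          _ ≤ H := hH
      have h5 : ((H / P + 1 - k : ℕ) : ℝ) = (H / P : ℕ) + 1 - k := by
        rw [Nat.cast_sub (by omega)]
        push_cast
        ring
      have h6 : (2 * ((k : ℝ) + 1)) ≤ H / P := by
        rw [le_div_iff₀ (by linarith)]
        have : ((2 * P * (k + 1) : ℕ) : ℝ) ≤ H := by exact_mod_cast hH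
        push_cast at this
        linarith
      have h7 : (1 / (2 * P : ℝ)) * H = (H / P) / 2 := by
        field_simp
      rw [h5, h7]
      linarith
    have h3 : (1 / (2 * P : ℝ)) ^ k / (k.factorial : ℝ) * (H : ℝ) ^ k =
        ((1 / (2 * P : ℝ)) * H) ^ k / (k.factorial : ℝ) := by
      rw [mul_pow]; ring
    rw [h3]
    refine div_le_div_of_nonneg_right ?_ (by positivity)
    exact pow_le_pow_left₀ (by positivity) h2 k

end

open Classical in
/-- **Every interval between consecutive `j`-th powers, `j ≥ 4`, and almost all patterns.**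

(1) For all `j ≥ 4` there is `c > 0` such that for all `k ≥ 1` and `ε > 0`, with a suitable `Λ`, for EVERY large `n`
and all `H` with `Λ log n ≤ H ≤ n^(j-1)`: for all but `ε H^k` of the sets `D` of `k` elements of `[1, H]`, if `D` is
admissible then there are at least `c^k 𝔖(D) n^(j-1) / (log n)^k` integers `m > n^j` such that all `m + d`, `d ∈ D`,
are smaller than `(n+1)^j` and have at most three prime factors, all of them at least `n^((j-1)/8)`.

(2) In particular, for all `j ≥ 4` and `k ≥ 1` there are `c > 0` and `Λ` such that for EVERY large `n` and all `H`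
with `Λ log n ≤ H ≤ n^(j-1)`, at least `c H^k` of the sets `D` of `k` elements of `[1, H]` are admissible and have at
least `c n^(j-1) / (log n)^k` such `m`.

(3) The singular series converges and is positive for admissible `D`.

The problem is about `j = 5` and the pattern `{0, 2, 6, 8}` of `k = 4` elements. -/
theorem result :
    (∀ j : ℕ, 4 ≤ j → ∃ c : ℝ, 0 < c ∧ ∀ k : ℕ, 1 ≤ k → ∀ ε : ℝ, 0 < ε → ∃ (Λ : ℝ) (n₀ : ℕ), 0 < Λ ∧
      ∀ n : ℕ, n₀ ≤ n → ∀ H : ℕ, Λ * Real.log n ≤ H → H ≤ n ^ (j - 1) →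
        ((((Icc 1 H).powersetCard k).filter (fun D => Admissible D ∧
          (count j n D : ℝ) < c ^ k * singular D * ((n : ℝ) ^ (j - 1) / Real.log n ^ k))).card : ℝ) ≤
            ε * (H : ℝ) ^ k) ∧
    (∀ j : ℕ, 4 ≤ j → ∀ k : ℕ, 1 ≤ k → ∃ (c Λ : ℝ) (n₀ : ℕ), 0 < c ∧ 0 < Λ ∧
      ∀ n : ℕ, n₀ ≤ n → ∀ H : ℕ, Λ * Real.log n ≤ H → H ≤ n ^ (j - 1) →
        c * (H : ℝ) ^ k ≤ ((((Icc 1 H).powersetCard k).filter (fun D => Admissible D ∧
          c * ((n : ℝ) ^ (j - 1) / Real.log n ^ k) ≤ count j n D)).card : ℝ)) ∧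
    ∀ D : Finset ℕ, HasProd (fun p : Nat.Primes => factor D p) (singular D) ∧
      (Admissible D → 0 < singular D) := by
  have part1 : ∀ j : ℕ, 4 ≤ j → ∃ c : ℝ, 0 < c ∧ ∀ k : ℕ, 1 ≤ k → ∀ ε : ℝ, 0 < ε →
      ∃ (Λ : ℝ) (n₀ : ℕ), 0 < Λ ∧
      ∀ n : ℕ, n₀ ≤ n → ∀ H : ℕ, Λ * Real.log n ≤ H → H ≤ n ^ (j - 1) →
        ((((Icc 1 H).powersetCard k).filter (fun D => Admissible D ∧
          (count j n D : ℝ) < c ^ k * singular D * ((n : ℝ) ^ (j - 1) / Real.log n ^ k))).card : ℝ) ≤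
            ε * (H : ℝ) ^ k := by
    obtain ⟨c, hc, hmain⟩ := Pool.Agent.J4.H38.SR2.almostI
    intro j hj
    refine ⟨c / j, by positivity, fun k hk ε hε => ?_⟩
    obtain ⟨k, rfl⟩ : ∃ i, k = i + 1 := ⟨k - 1, by omega⟩
    obtain ⟨Λ, hΛ, h⟩ := hmain k ε hε
    obtain ⟨N₀, hN₀⟩ := eventually_atTop.1 h
    obtain ⟨n₁, hn₁⟩ := interval j hj
    refine ⟨Λ * j, max (max N₀ n₁) 3, by positivity, fun n hn H hH1 hH2 => ?_⟩
    have hnN : N₀ ≤ n := ((le_max_left _ _).trans (le_max_left _ _)).trans hn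
    have hnn : n₁ ≤ n := ((le_max_right _ _).trans (le_max_left _ _)).trans hn
    have hn3 : 3 ≤ n := (le_max_right _ _).trans hn
    obtain ⟨N, hN1, hN2, hN3, hN4⟩ := hn₁ n hnn H hH2
    have hpow : n ≤ n ^ (j - 1) := by
      calc n = n ^ 1 := (pow_one n).symm
        _ ≤ n ^ (j - 1) := Nat.pow_le_pow_right (by omega) (by omega)
    have hNn : n ≤ N := by omega
    have hN1' : (1 : ℝ) < N := by exact_mod_cast (by omega : 1 < N)
    have hln : 0 < Real.log n := Real.log_pos (by exact_mod_cast (by omega : 1 < n))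
    have hlN : 0 < Real.log N := Real.log_pos hN1'
    have hlog : Real.log N ≤ j * Real.log n := by
      rw [← Real.log_pow]
      exact Real.log_le_log (by linarith) hN3
    have hΛH : Λ * Real.log N ≤ H := by
      refine le_trans ?_ hH1
      rw [mul_assoc]
      exact mul_le_mul_of_nonneg_left hlog hΛ.le
    refine hN₀ N (hnN.trans hNn) (n ^ j) hN4 H hΛH (by omega) _ fun D hD => ?_
    rw [mem_filter] at hD
    refine ⟨hD.1, (adm_iff D).1 hD.2.1, ?_⟩
    have h1 := hD.2.2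
    have h2 : (Pool.Agent.J4.H38.SR2.pi3I (n ^ j) D N : ℝ) ≤ count j n D := by
      exact_mod_cast count_ge hN1 (by omega) (by omega) (mem_powersetCard.1 hD.1).1
    refine h2.trans_lt (h1.trans_le ?_)
    rw [singular_eq]
    have h3 : (c / j) ^ (k + 1) * ((n : ℝ) ^ (j - 1) / Real.log n ^ (k + 1)) ≤
        c ^ (k + 1) * (N / Real.log N ^ (k + 1)) := by
      have h4 : ((n : ℝ) ^ (j - 1)) ≤ N := by exact_mod_cast (by omega : n ^ (j - 1) ≤ N)
      have h5 : Real.log N ^ (k + 1) ≤ (j * Real.log n) ^ (k + 1) := pow_le_pow_left₀ hlN.le hlog _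
      have hj0 : (0 : ℝ) < j := by exact_mod_cast (by omega : 0 < j)
      calc (c / j) ^ (k + 1) * ((n : ℝ) ^ (j - 1) / Real.log n ^ (k + 1))
          = c ^ (k + 1) * ((n : ℝ) ^ (j - 1) / (j * Real.log n) ^ (k + 1)) := by
            rw [div_pow, mul_pow]
            have h7 : (j : ℝ) ^ (k + 1) ≠ 0 := by positivity
            have h8 : Real.log n ^ (k + 1) ≠ 0 := by positivity
            field_simp
        _ ≤ c ^ (k + 1) * (N / Real.log N ^ (k + 1)) := by
            refine mul_le_mul_of_nonneg_left ?_ (by positivity)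
            exact div_le_div₀ (by positivity) h4 (by positivity) h5
    have h6 : 0 ≤ Pool.Agent.H387R2.Uni.CT D := (Pool.Agent.J4.H38.SR.CT_pos_of_adm
      ((adm_iff D).1 hD.2.1)).le
    calc (c / j) ^ (k + 1) * Pool.Agent.H387R2.Uni.CT D * ((n : ℝ) ^ (j - 1) / Real.log n ^ (k + 1))
        = (c / j) ^ (k + 1) * ((n : ℝ) ^ (j - 1) / Real.log n ^ (k + 1)) *
          Pool.Agent.H387R2.Uni.CT D := by ring
      _ ≤ c ^ (k + 1) * (N / Real.log N ^ (k + 1)) * Pool.Agent.H387R2.Uni.CT D :=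
          mul_le_mul_of_nonneg_right h3 h6
      _ = _ := by ring
  refine ⟨part1, fun j hj k hk => ?_, fun D => ⟨Pool.Agent.H387R2.Uni.CT_hasProd D, fun h =>
    Pool.Agent.J4.H38.SR.CT_pos_of_adm h⟩⟩
  obtain ⟨c, hc, part1⟩ := part1 j hj
  obtain ⟨c₁, hc₁, H₀, hF⟩ := many k hk
  obtain ⟨k', rfl⟩ : ∃ i, k = i + 1 := ⟨k - 1, by omega⟩
  obtain ⟨cp, hcp, hlow⟩ := Pool.Agent.Y822.PT_low k'
  obtain ⟨Λ, N₀, hΛ, h1⟩ := part1 (k' + 1) hk (c₁ / 2) (by positivity)
  obtain ⟨N₂, hN₂⟩ := eventually_atTop.1 (Pool.Agent.Y822.ev_logN (eventually_ge_atTop ((H₀ : ℝ) / Λ)))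
  refine ⟨min (c₁ / 2) (c ^ (k' + 1) * cp), Λ, max (max N₀ N₂) 2, lt_min (by positivity) (by positivity), hΛ,
    fun N hN H hH1 hH2 => ?_⟩
  have hNN₀ : N₀ ≤ N := ((le_max_left _ _).trans (le_max_left _ _)).trans hN
  have hNN₂ : N₂ ≤ N := ((le_max_right _ _).trans (le_max_left _ _)).trans hN
  have hN2 : 2 ≤ N := (le_max_right _ _).trans hN
  have hL0 : 0 < Real.log N := Real.log_pos (by exact_mod_cast (by omega : 1 < N))
  have hHH₀ : H₀ ≤ H := by
    have h2 := hN₂ N hNN₂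
    rw [div_le_iff₀ hΛ] at h2
    exact_mod_cast (h2.trans (le_of_eq (mul_comm _ _))).trans hH1
  obtain ⟨F, hF1, hF2, hF3⟩ := hF H hHH₀
  have h2 := h1 N hNN₀ H hH1 hH2
  set B := ((Icc 1 H).powersetCard (k' + 1)).filter (fun D => Admissible D ∧
          (count j N D : ℝ) < c ^ (k' + 1) * singular D * ((N : ℝ) ^ (j - 1) / Real.log N ^ (k' + 1)))
    with hB
  have h3 : F \ B ⊆ ((Icc 1 H).powersetCard (k' + 1)).filter (fun D => Admissible D ∧
      min (c₁ / 2) (c ^ (k' + 1) * cp) * ((N : ℝ) ^ (j - 1) / Real.log N ^ (k' + 1)) ≤ count j N D) := by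
    intro D hD
    rw [Finset.mem_sdiff] at hD
    obtain ⟨hDF, hDB⟩ := hD
    have hadm := hF2 D hDF
    rw [mem_filter]
    refine ⟨hF1 hDF, hadm, ?_⟩
    have h4 : ¬ (count j N D : ℝ) < c ^ (k' + 1) * singular D *
        ((N : ℝ) ^ (j - 1) / Real.log N ^ (k' + 1)) := fun h =>
      hDB (by rw [hB, mem_filter]; exact ⟨hF1 hDF, hadm, h⟩)
    rw [not_lt] at h4
    refine le_trans ?_ h4
    have h5 : cp ≤ singular D := by
      rw [singular_eq]
      exact (hlow D (mem_powersetCard.1 (hF1 hDF)).2 ((adm_iff D).1 hadm)).2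
    have h6 : min (c₁ / 2) (c ^ (k' + 1) * cp) ≤ c ^ (k' + 1) * singular D :=
      (min_le_right _ _).trans (mul_le_mul_of_nonneg_left h5 (by positivity))
    exact mul_le_mul_of_nonneg_right h6 (by positivity)
  have h4 := card_le_card h3
  have h5 : F.card - B.card ≤ (F \ B).card := le_card_sdiff B F
  have h6 : (F.card : ℝ) - B.card ≤ ((F \ B).card : ℝ) := by
    have : F.card ≤ (F \ B).card + B.card := by omega
    have h7 : (F.card : ℝ) ≤ (F \ B).card + B.card := by exact_mod_cast this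
    linarith
  have h7 : ((F \ B).card : ℝ) ≤ ((((Icc 1 H).powersetCard (k' + 1)).filter (fun D => Admissible D ∧
      min (c₁ / 2) (c ^ (k' + 1) * cp) * ((N : ℝ) ^ (j - 1) / Real.log N ^ (k' + 1)) ≤
        count j N D)).card : ℝ) := by
    exact_mod_cast h4
  refine le_trans ?_ (h6.trans h7)
  have h8 : min (c₁ / 2) (c ^ (k' + 1) * cp) * (H : ℝ) ^ (k' + 1) ≤ c₁ / 2 * (H : ℝ) ^ (k' + 1) :=
    mul_le_mul_of_nonneg_right (min_le_left _ _) (by positivity)
  linarith

end Pool.Agent.Results.MP_c03ca8_nt.EveryInterval
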